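import Pool.Agent.Work.MP_678620_nt.TAFin

/-! The Hardy-Littlewood type asymptotic for pairs of sums of two squares. -/

set_option autoImplicit false

namespace Pool.Agent.Results.MP_678620_nt.Pairs

open Pool.Agent.Work.MP_678620_nt.TA Filter Topology in
theorem result :
  ∀ K : ℝ,
    Asymptotics.IsEquivalent Filter.atTop
      (fun x : ℝ => (({n : ℕ | 1 ≤ n ∧ (n : ℝ) ≤ x ∧ ∃ a b : ℤ, (n : ℤ) = a ^ 2 + b ^ 2}.ncard : ℕ) : ℝ) / x)
      (fun x : ℝ => K / Real.sqrt (Real.log x)) →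
  ∀ δ : Finset ℤ → ℕ → ℝ,
    (∀ (H : Finset ℤ) (p : ℕ), p.Prime →
      Filter.Tendsto
        (fun α : ℕ => (({a : ℕ | a < p ^ α ∧ ∀ h ∈ H, ∃ u v : ℤ,
            ((p : ℤ) ^ α) ∣ ((a : ℤ) + h - (u ^ 2 + v ^ 2))}.ncard : ℕ) : ℝ) / (p : ℝ) ^ α)
        Filter.atTop (nhds (δ H p))) →
  ∀ H : Finset ℤ, H.card = 2 →
    0 < (∏' q : {p : ℕ // p.Prime ∧ p % 4 ≠ 1}, δ H q.1 / (δ {0} q.1) ^ H.card) →
    Asymptotics.IsEquivalent Filter.atTop
      (fun x : ℝ => (({n : ℕ | 1 ≤ n ∧ (n : ℝ) ≤ x ∧ ∀ h ∈ H, ∃ a b : ℤ,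
          (n : ℤ) + h = a ^ 2 + b ^ 2}.ncard : ℕ) : ℝ) / x)
      (fun x : ℝ => (∏' q : {p : ℕ // p.Prime ∧ p % 4 ≠ 1}, δ H q.1 / (δ {0} q.1) ^ H.card) *
          (K / Real.sqrt (Real.log x)) ^ H.card) := by
  intro K hK δ hδ H hH hS
  obtain ⟨a, b, hab, rfl⟩ := Finset.card_eq_two.1 hH
  rw [hH] at hS ⊢
  have pos : ∀ᶠ x : ℝ in atTop, 0 < Real.log x ∧ 1 ≤ x :=
    (Real.tendsto_log_atTop.eventually_gt_atTop 0).and (eventually_ge_atTop 1)
  have K0 : K ≠ 0 := by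
    rintro rfl
    simp only [zero_div] at hK
    obtain ⟨x, h1, h2⟩ := ((Asymptotics.isEquivalent_zero_iff_eventually_zero.1 hK).and pos).exists
    have h3 := TT_eq S2 (x := x) (by linarith [h2.2])
    have h4 : ind (S2 (1 : ℕ)) ≤ TT S2 ⌊x⌋₊ := Finset.single_le_sum (f := fun n : ℕ => ind (S2 n))
      (fun _ _ => ind_nonneg _) (Finset.mem_Ioc.2 ⟨one_pos, Nat.le_floor (by simpa using h2.2)⟩)
    rw [ind_pos ⟨1, 0, by simp⟩, ← h3] at h4
    exact (div_pos (one_pos.trans_le h4) (one_pos.trans_le h2.2)).ne' h1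
  have k1 := ((hK.mul (Asymptotics.IsEquivalent.refl (u := fun x : ℝ => √(Real.log x)))).symm.tendsto_nhds
    (tendsto_const_nhds.congr' (pos.mono fun x h =>
      (div_mul_cancel₀ K (Real.sqrt_pos.2 h.1).ne').symm))).comp tnat
  have k2 := pair_tendsto hab (k1.congr fun N => by
      have := TT_eq S2 (Nat.cast_nonneg N)
      rw [Nat.floor_natCast] at this
      rw [← this]
      rfl)
    (sing_tendsto (sub_ne_zero.2 hab.symm) (δ₀ := δ {0}) (δ := δ {a, b})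
      (fun p hp => (hδ {0} p hp).congr fun α => (den_eq _ _ _).symm)
      (fun p hp => (hδ {a, b} p hp).congr fun α => by
        rw [← den_eq, den_shift (pow_ne_zero _ hp.ne_zero)]) tz tal)
  refine Asymptotics.isEquivalent_of_tendsto_one ?_
  have k3 := k2.div_const (K ^ 2 * ∏' q : {p : ℕ // p.Prime ∧ p % 4 ≠ 1},
    δ {a, b} q.1 / (δ {0} q.1) ^ 2)
  rw [div_self (by positivity)] at k3
  refine k3.congr' (pos.mono fun x h => ?_)
  have := h.1
  have e := TT_eq (fun n => S2 (n + a) ∧ S2 (n + b)) (x := x) (by linarith [h.2])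
  simp only [Pi.div_apply, Finset.mem_insert, Finset.mem_singleton, forall_eq_or_imp, forall_eq]
  rw [← e, div_pow, Real.sq_sqrt h.1.le]
  unfold S2
  field_simp

end Pool.Agent.Results.MP_678620_nt.Pairs
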