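import Pool.Agent.Work.MP_678620_nt.V.J

/-! The asymptotic for almost all tuples of sums of two squares with short shifts. -/

set_option autoImplicit false

namespace Pool.Agent.Results.MP_678620_nt.TypicalTuples

open Pool.Agent.Work.MP_678620_nt.TA Filter Topology in
theorem result :
  ∀ K : ℝ,
    Asymptotics.IsEquivalent Filter.atTop
      (fun x : ℝ => (({n : ℕ | 1 ≤ n ∧ (n : ℝ) ≤ x ∧ ∃ a b : ℤ, (n : ℤ) = a ^ 2 + b ^ 2}.ncard : ℕ) : ℝ) / x)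
      (fun x : ℝ => K / Real.sqrt (Real.log x)) →
  ∀ δ : Finset ℤ → ℕ → ℝ,
    (∀ (H : Finset ℤ) (p : ℕ), p.Prime →
      Filter.Tendsto
        (fun α : ℕ => (({a : ℕ | a < p ^ α ∧ ∀ h ∈ H, ∃ u v : ℤ,
            ((p : ℤ) ^ α) ∣ ((a : ℤ) + h - (u ^ 2 + v ^ 2))}.ncard : ℕ) : ℝ) / (p : ℝ) ^ α)
        Filter.atTop (nhds (δ H p))) →
  ∀ (k C A : ℕ) (ε : ℝ), 1 ≤ k → 0 < ε →
    ∀ᶠ x : ℝ in Filter.atTop, ∀ L : ℕ,
      Real.log x ^ (6 * k + 2 * C + 13) ≤ L → (L : ℝ) ≤ Real.log x ^ A →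
      (({H : Finset ℤ | H ⊆ Finset.Icc (1 : ℤ) L ∧ H.card = k ∧
        ε * ((1 + ∏' q : {p : ℕ // p.Prime ∧ p % 4 ≠ 1}, δ H q.1 / (δ {0} q.1) ^ k) *
          (K / Real.sqrt (Real.log x)) ^ k) <
        |(({n : ℕ | 1 ≤ n ∧ (n : ℝ) ≤ x ∧ ∀ h ∈ H, ∃ a b : ℤ,
            (n : ℤ) + h = a ^ 2 + b ^ 2}.ncard : ℕ) : ℝ) / x -
          (∏' q : {p : ℕ // p.Prime ∧ p % 4 ≠ 1}, δ H q.1 / (δ {0} q.1) ^ k) *
            (K / Real.sqrt (Real.log x)) ^ k|}.ncard : ℕ) : ℝ) ≤ (L : ℝ) ^ k / Real.log x ^ C := by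
  intro K hK δ hδ k C A ε hk hε
  have pos : ∀ᶠ x : ℝ in atTop, 0 < Real.log x ∧ 1 ≤ x :=
    (Real.tendsto_log_atTop.eventually_gt_atTop 0).and (eventually_ge_atTop 1)
  have K0 : K ≠ 0 := by
    rintro rfl
    simp only [zero_div] at hK
    obtain ⟨x, h1, h2⟩ := ((Asymptotics.isEquivalent_zero_iff_eventually_zero.1 hK).and pos).exists
    have h3 := TT_eq S2 (x := x) (by linarith [h2.2])
    have h4 : ind (S2 (1 : ℕ)) ≤ TT S2 ⌊x⌋₊ := Finset.single_le_sum (f := fun n : ℕ => ind (S2 n))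
      (fun _ _ => ind_nonneg _) (Finset.mem_Ioc.2 ⟨one_pos, Nat.le_floor (by simpa using h2.2)⟩)
    rw [ind_pos ⟨1, 0, by simp⟩, ← h3] at h4
    exact (div_pos (one_pos.trans_le h4) (one_pos.trans_le h2.2)).ne' h1
  have k1 := ((hK.mul (Asymptotics.IsEquivalent.refl (u := fun x : ℝ => √(Real.log x)))).symm.tendsto_nhds
    (tendsto_const_nhds.congr' (pos.mono fun x h =>
      (div_mul_cancel₀ K (Real.sqrt_pos.2 h.1).ne').symm))).comp tnat
  have k2 : Tendsto (fun X : ℕ => TT S2 X / X * √(Real.log X)) atTop (𝓝 K) :=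
    k1.congr fun N => by
      have := TT_eq S2 (Nat.cast_nonneg N)
      rw [Nat.floor_natCast] at this
      rw [← this]
      rfl
  have K1 : 0 ≤ K := ge_of_tendsto' k2 fun N => mul_nonneg (div_nonneg
    (Finset.sum_nonneg fun _ _ => ind_nonneg _) N.cast_nonneg) (Real.sqrt_nonneg _)
  filter_upwards [typical (δ := δ) (fun H p hp => (hδ H p hp).congr fun α => (den_eq _ _ _).symm)
    (k := k) (by omega) C A (K1.lt_of_ne' K0) k2 hε, pos] with x h hx L L1 L2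
  have e := fun H : Finset ℤ => TT_eq (fun n => ∀ h ∈ H, S2 (n + h)) (x := x) (by linarith [hx.2])
  have k := h L L1 L2
  simp only [← e] at k
  exact k

end Pool.Agent.Results.MP_678620_nt.TypicalTuples
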